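import Pool.Agent.N929.EZ.Stm2

/-!
# FIN: from the differences with error terms to the differences of the logarithms
-/

set_option autoImplicit false

namespace Pool.Agent.N427.EZ

open Finset Filter Pool.Agent.N929.EZ

/-- `log n / √n` is small -/
theorem log_small (a c : ℝ) (ha : 0 < a) (hc : 0 < c) : ∃ N : ℕ, ∀ n : ℕ, N ≤ n →
    a * (Real.log n / Real.sqrt n) ≤ c := by
  have h1 := (isLittleO_log_rpow_atTop (r := 1 / 2) (by norm_num)).bound
    (show (0 : ℝ) < c / a by positivity)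
  have h2 := tendsto_natCast_atTop_atTop (R := ℝ) |>.eventually h1
  obtain ⟨N, hN⟩ := eventually_atTop.1 (h2.and (eventually_ge_atTop 1))
  refine ⟨N, fun n hn => ?_⟩
  obtain ⟨h3, h4⟩ := hN n hn
  have hn0 : (0 : ℝ) < n := by exact_mod_cast (by omega : 0 < n)
  have hs : 0 < Real.sqrt n := Real.sqrt_pos.2 hn0
  rw [← Real.sqrt_eq_rpow, Real.norm_eq_abs, Real.norm_eq_abs, abs_of_pos hs] at h3
  have h5 : Real.log n ≤ c / a * Real.sqrt n := (le_abs_self _).trans h3
  have h6 : Real.log n / Real.sqrt n ≤ c / a := by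
    rw [div_le_iff₀ hs]; exact h5
  calc a * (Real.log n / Real.sqrt n) ≤ a * (c / a) := by gcongr
    _ = c := by field_simp

/-- comparison along a sequence with small relative differences -/
theorem compar (f : ℕ → ℝ) (r : ℕ) (hf : ∀ j, 0 < f j)
    (hd : ∀ j, j ≤ r → |f j - f (j + 1)| ≤ 1 / 4 * f j) :
    ∀ j, j ≤ r → f 0 ≤ 2 ^ j * f j ∧ f j ≤ 2 ^ j * f 0 := by
  intro j
  induction j with
  | zero => intro _; simp
  | succ j ih =>
    intro hj
    obtain ⟨h1, h2⟩ := ih (by omega)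
    have h3 := abs_le.1 (hd j (by omega))
    have h4 := hf j
    have h5 := hf (j + 1)
    have h6 : (0 : ℝ) < 2 ^ j := by positivity
    constructor
    · calc f 0 ≤ 2 ^ j * f j := h1
        _ ≤ 2 ^ j * (2 * f (j + 1)) := by gcongr; linarith [h3.2]
        _ = 2 ^ (j + 1) * f (j + 1) := by ring
    · calc f (j + 1) ≤ 2 * f j := by linarith [h3.1]
        _ ≤ 2 * (2 ^ j * f 0) := by gcongr
        _ = 2 ^ (j + 1) * f 0 := by ring

/-- the main estimate for large `n` -/
theorem fin (h : S_LOG) : S_FIN := by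
  intro μ P T E hμ hP2 hPs hT hE hK hdiff r hr
  obtain ⟨K, hK0, hK⟩ := hK
  choose A C hA hC hAC using hdiff
  have hμ0 : 0 < μ := by linarith
  -- common constants
  set A0 : ℝ := 1 + ∑ s ∈ range (r + 1), A s with hA0
  set C0 : ℝ := 1 + ∑ s ∈ range (r + 1), C s with hC0
  have hA0p : 1 ≤ A0 := by
    rw [hA0]; have := sum_nonneg (s := range (r + 1)) fun s _ => (hA s).le; linarith
  have hC0p : 1 ≤ C0 := by
    rw [hC0]; have := sum_nonneg (s := range (r + 1)) fun s _ => (hC s).le; linarith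
  have hAle : ∀ s, s ≤ r → A s ≤ A0 := fun s hs => by
    have := single_le_sum (f := A) (fun s _ => (hA s).le) (mem_range.2 (Nat.lt_succ_of_le hs))
    rw [hA0]; linarith
  have hCle : ∀ s, s ≤ r → C s ≤ C0 := fun s hs => by
    have := single_le_sum (f := C) (fun s _ => (hC s).le) (mem_range.2 (Nat.lt_succ_of_le hs))
    rw [hC0]; linarith
  have hall : ∀ s, s ≤ r → ∀ (n : ℕ) (ε : ℝ), P n → 0 < ε → ε ≤ 1 →
      A0 * Real.log n ^ 2 ≤ ε ^ 2 * n →
      |∑ i ∈ range (s + 1), (-1 : ℝ) ^ i * (s.choose i : ℝ) * (T (n + 2 * i) / μ ^ (2 * i))| ≤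
        C0 * (ε ^ s * T n + Real.exp (-(ε ^ 2 * n / A0)) * E n) := by
    intro s hs n ε hPn hε0 hε1 hle
    have h1 : A s * Real.log n ^ 2 ≤ ε ^ 2 * n :=
      (mul_le_mul_of_nonneg_right (hAle s hs) (sq_nonneg _)).trans hle
    refine (hAC s n ε hPn hε0 hε1 h1).trans ?_
    have h2 : Real.exp (-(ε ^ 2 * n / A s)) ≤ Real.exp (-(ε ^ 2 * n / A0)) := by
      apply Real.exp_le_exp.2
      apply neg_le_neg
      exact div_le_div_of_nonneg_left (by positivity) (hA s) (hAle s hs)
    have h3 := hT n hPn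
    have h4 := hE n
    have h5 := hCle s hs
    have h6 := hC s
    gcongr
  set A' : ℝ := A0 * (4 * K + r + 4) with hA'
  have hA'4 : 4 * A0 ≤ A' := by
    rw [hA']
    have : (0 : ℝ) ≤ r := Nat.cast_nonneg r
    nlinarith
  have hA'1 : 1 ≤ A' := by linarith
  set q : ℝ := Real.sqrt A' with hq
  have hq0 : 0 < q := Real.sqrt_pos.2 (by linarith)
  have hq1 : 1 ≤ q := by rw [hq]; exact Real.one_le_sqrt.2 hA'1
  have hqq : q ^ 2 = A' := Real.sq_sqrt (by linarith)
  obtain ⟨N0, hN0⟩ := log_small q (1 / (8 * C0)) hq0 (by positivity)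
  set N1 : ℕ := N0 + 2 * r + 3 with hN1
  obtain ⟨D, hD0, hD⟩ := h r hr (2 ^ r * (1 + 2 * C0)) (by positivity)
  set S : ℕ → ℝ := fun n => ∑ i ∈ range (r + 1), (-1 : ℝ) ^ i * (r.choose i : ℝ) *
        Real.log (T (n + 2 * i) / μ ^ (n + 2 * i)) with hS
  refine ⟨D * q ^ r + ∑ n ∈ range N1, |S n| / (Real.log n / Real.sqrt n) ^ r, ?_, ?_⟩
  · have : 0 ≤ ∑ n ∈ range N1, |S n| / (Real.log n / Real.sqrt n) ^ r := by
      refine sum_nonneg fun n _ => ?_
      have : 0 ≤ Real.log n := Real.log_natCast_nonneg n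
      positivity
    positivity
  intro n hPn
  have hn2 := hP2 n hPn
  have hlog0 : 0 < Real.log n := Real.log_pos (by exact_mod_cast hn2)
  have hn0 : (0 : ℝ) < n := by exact_mod_cast (by omega : 0 < n)
  have hsq0 : 0 < Real.sqrt n := Real.sqrt_pos.2 hn0
  have hx0 : 0 < (Real.log n / Real.sqrt n) ^ r := by positivity
  have hsum0 : 0 ≤ ∑ n ∈ range N1, |S n| / (Real.log n / Real.sqrt n) ^ r := by
    refine sum_nonneg fun n _ => ?_
    have : 0 ≤ Real.log n := Real.log_natCast_nonneg n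
    positivity
  change |S n| ≤ _
  by_cases hnN : n < N1
  · have h1 := single_le_sum (f := fun n : ℕ => |S n| / (Real.log n / Real.sqrt n) ^ r)
      (fun n _ => by
        have : 0 ≤ Real.log n := Real.log_natCast_nonneg n
        positivity) (mem_range.2 hnN)
    have h2 : |S n| = |S n| / (Real.log n / Real.sqrt n) ^ r * (Real.log n / Real.sqrt n) ^ r := by
      field_simp
    rw [h2]
    refine mul_le_mul_of_nonneg_right (h1.trans ?_) hx0.le
    have : 0 ≤ D * q ^ r := by positivity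
    linarith
  push Not at hnN
  set ε : ℝ := q * (Real.log n / Real.sqrt n) with hε
  have hε0 : 0 < ε := by positivity
  have hεC : ε ≤ 1 / (8 * C0) := hN0 n (by omega)
  have hε1 : ε ≤ 1 := by
    refine hεC.trans ?_
    rw [div_le_one (by positivity)]
    linarith
  have hεn : ε ^ 2 * n = A' * Real.log n ^ 2 := by
    rw [hε, mul_pow, hqq, div_pow, Real.sq_sqrt hn0.le]
    field_simp
  have hL1 : 1 ≤ Real.log n := by
    have h3 : Real.exp 1 ≤ n := by
      have := Real.exp_one_lt_d9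
      have h3 : (3 : ℝ) ≤ n := by exact_mod_cast (by omega : 3 ≤ n)
      linarith
    calc (1 : ℝ) = Real.log (Real.exp 1) := (Real.log_exp 1).symm
      _ ≤ Real.log n := Real.log_le_log (Real.exp_pos 1) h3
  -- the lower bound for powers of `ε`
  have hεlow : ∀ s, s ≤ r → Real.exp (-(r * Real.log n ^ 2)) ≤ ε ^ s := by
    intro s hs
    have h1 : (1 : ℝ) / n ≤ ε := by
      rw [hε]
      have h2 : Real.sqrt n ≤ n := by
        rw [Real.sqrt_le_left hn0.le]
        have : (1 : ℝ) ≤ n := by exact_mod_cast (by omega : 1 ≤ n)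
        nlinarith
      calc (1 : ℝ) / n ≤ 1 / Real.sqrt n := one_div_le_one_div_of_le hsq0 h2
        _ ≤ Real.log n / Real.sqrt n := by gcongr
        _ ≤ q * (Real.log n / Real.sqrt n) := by
          have : 0 ≤ Real.log n / Real.sqrt n := by positivity
          nlinarith
    have h3 : Real.exp (-Real.log n) ≤ ε := by
      rw [Real.exp_neg, Real.exp_log hn0, ← one_div]
      exact h1
    calc Real.exp (-(r * Real.log n ^ 2)) ≤ Real.exp (-(r * Real.log n)) := by
          apply Real.exp_le_exp.2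
          apply neg_le_neg
          have : (0 : ℝ) ≤ r := Nat.cast_nonneg r
          have h4 : Real.log n ≤ Real.log n ^ 2 := by nlinarith
          exact mul_le_mul_of_nonneg_left h4 this
      _ = Real.exp (-Real.log n) ^ r := by
          rw [← Real.exp_nat_mul]; congr 1; ring
      _ ≤ ε ^ r := pow_le_pow_left₀ (Real.exp_pos _).le h3 r
      _ ≤ ε ^ s := pow_le_pow_of_le_one hε0.le hε1 hs
  have hPj : ∀ j, P (n + 2 * j) := by
    intro j
    induction j with
    | zero => simpa using hPn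
    | succ j ih => exact hPs _ ih
  have hlogj : ∀ j, j ≤ r → Real.log ((n + 2 * j : ℕ) : ℝ) ≤ 2 * Real.log n := by
    intro j hj
    rw [show 2 * Real.log n = Real.log ((n : ℝ) ^ 2) by rw [Real.log_pow]; norm_num]
    have h1 : 0 < n + 2 * j := by omega
    apply Real.log_le_log (by exact_mod_cast h1)
    have h2 : n + 2 * j ≤ n ^ 2 := by
      have : 2 * r + 3 ≤ n := by omega
      nlinarith
    exact_mod_cast h2
  have hmain : ∀ s, s ≤ r → ∀ j, j ≤ r →
      |∑ i ∈ range (s + 1), (-1 : ℝ) ^ i * (s.choose i : ℝ) *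
        (T (n + 2 * j + 2 * i) / μ ^ (2 * i))| ≤ 2 * C0 * ε ^ s * T (n + 2 * j) := by
    intro s hs j hj
    have hn1 : (n : ℝ) ≤ ((n + 2 * j : ℕ) : ℝ) := by exact_mod_cast (by omega)
    have hlj0 : 0 ≤ Real.log ((n + 2 * j : ℕ) : ℝ) := Real.log_natCast_nonneg _
    have hlsq : Real.log ((n + 2 * j : ℕ) : ℝ) ^ 2 ≤ 4 * Real.log n ^ 2 := by
      have := pow_le_pow_left₀ hlj0 (hlogj j hj) 2
      linarith [this, show (2 * Real.log n) ^ 2 = 4 * Real.log n ^ 2 by ring]
    have hge : A' * Real.log n ^ 2 ≤ ε ^ 2 * ((n + 2 * j : ℕ) : ℝ) := by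
      rw [← hεn]; gcongr
    have h1 : A0 * Real.log ((n + 2 * j : ℕ) : ℝ) ^ 2 ≤ ε ^ 2 * ((n + 2 * j : ℕ) : ℝ) := by
      calc A0 * Real.log ((n + 2 * j : ℕ) : ℝ) ^ 2 ≤ A0 * (4 * Real.log n ^ 2) := by gcongr
        _ = 4 * A0 * Real.log n ^ 2 := by ring
        _ ≤ A' * Real.log n ^ 2 := by gcongr
        _ ≤ _ := hge
    have h2 := hall s hs (n + 2 * j) ε (hPj j) hε0 hε1 h1
    refine h2.trans ?_
    have hTj := hT _ (hPj j)
    have h3 : Real.exp (-(ε ^ 2 * ((n + 2 * j : ℕ) : ℝ) / A0)) * E (n + 2 * j) ≤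
        ε ^ s * T (n + 2 * j) := by
      calc Real.exp (-(ε ^ 2 * ((n + 2 * j : ℕ) : ℝ) / A0)) * E (n + 2 * j)
          ≤ Real.exp (-((4 * K + r + 4) * Real.log n ^ 2)) *
            (Real.exp (K * (4 * Real.log n ^ 2)) * T (n + 2 * j)) := by
            refine mul_le_mul ?_ ?_ (hE _) (Real.exp_pos _).le
            · apply Real.exp_le_exp.2
              apply neg_le_neg
              rw [le_div_iff₀ (by linarith)]
              calc (4 * K + r + 4) * Real.log n ^ 2 * A0 = A' * Real.log n ^ 2 := by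
                    rw [hA']; ring
                _ ≤ _ := hge
            · refine (hK _ (hPj j)).trans ?_
              gcongr
        _ = Real.exp (-((r + 4) * Real.log n ^ 2)) * T (n + 2 * j) := by
            rw [← mul_assoc, ← Real.exp_add]
            congr 2
            ring
        _ ≤ Real.exp (-(r * Real.log n ^ 2)) * T (n + 2 * j) := by
            gcongr
            linarith
        _ ≤ ε ^ s * T (n + 2 * j) := by
            gcongr
            exact hεlow s hs
    calc C0 * (ε ^ s * T (n + 2 * j) +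
          Real.exp (-(ε ^ 2 * ((n + 2 * j : ℕ) : ℝ) / A0)) * E (n + 2 * j))
        ≤ C0 * (ε ^ s * T (n + 2 * j) + ε ^ s * T (n + 2 * j)) := by gcongr
      _ = 2 * C0 * ε ^ s * T (n + 2 * j) := by ring
  -- the sequence
  set f : ℕ → ℝ := fun j => T (n + 2 * j) / μ ^ (n + 2 * j) with hf
  have hf0 : ∀ j, 0 < f j := fun j => by
    have := hT _ (hPj j)
    rw [hf]; positivity
  have hDf : ∀ s, s ≤ r → ∀ j, j ≤ r → |Df s f j| ≤ 2 * C0 * ε ^ s * f j := by
    intro s hs j hj
    have h1 : Df s f j = (∑ i ∈ range (s + 1), (-1 : ℝ) ^ i * (s.choose i : ℝ) *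
        (T (n + 2 * j + 2 * i) / μ ^ (2 * i))) / μ ^ (n + 2 * j) := by
      rw [Df, sum_div]
      refine sum_congr rfl fun i _ => ?_
      rw [hf]
      simp only
      rw [show n + 2 * (j + i) = n + 2 * j + 2 * i by ring, pow_add μ (n + 2 * j) (2 * i)]
      field_simp
    rw [h1, abs_div, abs_of_pos (show 0 < μ ^ (n + 2 * j) by positivity)]
    calc _ ≤ 2 * C0 * ε ^ s * T (n + 2 * j) / μ ^ (n + 2 * j) := by
          gcongr
          exact hmain s hs j hj
      _ = 2 * C0 * ε ^ s * f j := by rw [hf]; ring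
  have hcomp := compar f r hf0 (fun j hj => by
    have h1 := hDf 1 hr j hj
    have h2 : Df 1 f j = f j - f (j + 1) := by
      rw [Df]
      simp [sum_range_succ]
      ring
    rw [h2] at h1
    refine h1.trans ?_
    rw [pow_one]
    have h3 : 2 * C0 * ε ≤ 1 / 4 := by
      calc 2 * C0 * ε ≤ 2 * C0 * (1 / (8 * C0)) := by gcongr
        _ = 1 / 4 := by field_simp; norm_num
    exact mul_le_mul_of_nonneg_right h3 (hf0 j).le)
  have hpow : ∀ j, j ≤ r → (2 : ℝ) ^ j ≤ 2 ^ r := fun j hj =>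
    pow_le_pow_right₀ (by norm_num) hj
  have h2r : (0 : ℝ) < 2 ^ r := by positivity
  have hfin := hD f 0 ε hε0 hε1 (fun j _ => by rw [zero_add]; exact hf0 j)
    (fun j hj => by
      rw [zero_add]
      calc f 0 ≤ 2 ^ j * f j := (hcomp j hj).1
        _ ≤ 2 ^ r * (1 + 2 * C0) * f j := by
          have := hf0 j
          have h3 := hpow j hj
          refine mul_le_mul_of_nonneg_right ?_ this.le
          nlinarith)
    (fun s j hsj => by
      rw [zero_add]
      have h3 := hpow j (by omega)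
      have h4 := (hcomp j (by omega)).2
      have hεs : 0 < ε ^ s := by positivity
      have h5 := hf0 0
      calc |Df s f j| ≤ 2 * C0 * ε ^ s * f j := hDf s (by omega) j (by omega)
        _ ≤ 2 * C0 * ε ^ s * (2 ^ r * f 0) := by
          gcongr
          exact h4.trans (by gcongr)
        _ = 2 ^ r * (2 * C0) * ε ^ s * f 0 := by ring
        _ ≤ 2 ^ r * (1 + 2 * C0) * ε ^ s * f 0 := by
          gcongr
          linarith)
  have hSn : S n = Df r (fun j => Real.log (f j)) 0 := by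
    rw [hS, Df]
    simp only [zero_add, hf]
  rw [hSn]
  calc _ ≤ D * ε ^ r := hfin
    _ = D * q ^ r * (Real.log n / Real.sqrt n) ^ r := by rw [hε, mul_pow]; ring
    _ ≤ _ := by
      refine mul_le_mul_of_nonneg_right ?_ hx0.le
      linarith

end Pool.Agent.N427.EZ
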